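import Mathlib
import Pool.Agent.H907Z.LpX.Defs
import Pool.Agent.H907Z.LpX.Main

set_option autoImplicit false

namespace Pool.Agent.Results.MP_5d4768_an.ANoHom

open Pool.Agent.H907Z.LpX

/-- For different exponents there is no nonzero continuous homomorphism from the full `L^p` crossed
product of a minimal homeomorphism to the full or to the reduced crossed product of another one. -/
theorem result :
    ∀ (p₁ p₂ : ENNReal) [Fact (1 ≤ p₁)] [Fact (1 ≤ p₂)], p₁ ≠ ⊤ → p₂ ≠ ⊤ → p₁ ≠ p₂ →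
    ∀ (X₁ X₂ : Type) [MetricSpace X₁] [CompactSpace X₁] [Infinite X₁]
      [MetricSpace X₂] [CompactSpace X₂] [Infinite X₂] (h₁ : X₁ ≃ₜ X₁) (h₂ : X₂ ≃ₜ X₂),
      IsMinimal h₁ → IsMinimal h₂ →
      NoHom (FpFull p₁ h₁) (FpFull p₂ h₂) ∧ NoHom (FpFull p₁ h₁) (FpRed p₂ h₂) := by
  intro p₁ p₂ _ _ hp₁ hp₂ hne X₁ X₂ _ _ _ _ _ _ h₁ h₂ hm _
  exact main hp₁ hp₂ hne (aper_of_minimal hm)

end Pool.Agent.Results.MP_5d4768_an.ANoHom
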